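import Pool.Agent.Y771.NM.Chain

set_option autoImplicit false

open Filter Topology

namespace Pool.Agent.Results.MP_798203_nt.SimultaneousAffine

/-- `x` is normal in base `r`: for every `k ≥ 1` and every `m` with `0 ≤ m < r ^ k`, the proportion of
`n < N` such that the `k` digits of `x` in positions `n + 1, ..., n + k` after the radix point, read as an
integer in base `r`, form the number `m` (that is, `⌊r ^ (n + k) * x⌋ % r ^ k = m`), tends to `1 / r ^ k`
as `N → ∞`. -/
def IsNormal (r : ℕ) (x : ℝ) : Prop :=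
  ∀ k : ℕ, 1 ≤ k → ∀ m : ℤ, 0 ≤ m → m < (r : ℤ) ^ k →
    Tendsto (fun N : ℕ =>
      (((Finset.range N).filter
          (fun n : ℕ => ⌊(r : ℝ) ^ (n + k) * x⌋ % (r : ℤ) ^ k = m)).card : ℝ) / (N : ℝ))
      atTop (𝓝 (1 / (r : ℝ) ^ k))

/-- In every integer base `r ≥ 2`, for every sequence of affine maps `y ↦ a i * y + c i` with irrational
slopes `a i` and arbitrary real constants `c i`, every open interval contains ONE number `x` which is normal
and such that `a i * x + c i` is not normal for every `i`. -/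
theorem result : ∀ r : ℕ, 2 ≤ r → ∀ a c : ℕ → ℝ, (∀ i : ℕ, Irrational (a i)) →
    ∀ u v : ℝ, u < v →
      ∃ x : ℝ, u < x ∧ x < v ∧ IsNormal r x ∧ ∀ i : ℕ, ¬ IsNormal r (a i * x + c i) := by
  intro r hr a c ha u v huv
  exact Pool.Agent.Y771.NM.main r hr a c ha u v huv

end Pool.Agent.Results.MP_798203_nt.SimultaneousAffine
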